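import Pool.Agent.N127.TW.Cone

set_option autoImplicit false

/-! # Twisted topological zeta functions of `h(x) ∏_t (∑_j y_{t,j} f_{t,j}(x)) ^ a_t` for forms `h`, `f_{t,j}`

Let `x = (x_0, ..., x_n)`, let `h ≠ 0` and `f_{t,j}` be forms in `x`, of the degrees `dh` and `δ t` (for
every `t` some `f_{t,j}` is not zero), `a_t ≥ 1`, and

  `G(x, y) = h(x) ∏_t (∑_j y_{t,j} f_{t,j}(x)) ^ a_t`,

with further variables `y_{t,j}` (`ConeData`). So `G` is homogeneous of degree `d = dh + ∑_t a_t δ_t`
in `x`. The singularities of `G` at the points with `x = 0` are in general not isolated, and degenerate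
with respect to their Newton polyhedra.

The zeta function. Blow up the space `x = 0`: the exceptional divisor is `E_0 = ℙ^n × ℂ^κ`, with
`N = d` and `ν = n + 1`. Near a point `(Q, c)` of `E_0`, the pull-back of `G` is `t ^ d G(q, y)`, where
`t = 0` is the equation of `E_0` and `q ≠ 0` is a point of the line `Q`, so that the point `(Q, c)`
contributes `Z_{(q, c), e} / (d s + n + 1)` if `e ∣ d`, and `0` if not; here `Z_{(q, c), e}` is the `e`-th
twisted local zeta function of `G` at the point `(q, c)` (and `1` if `G(q, c) ≠ 0`). The local zeta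
functions take only finitely many values, each on a constructible set. Therefore the twisted zeta
function `Z^(e)` of `G`, as well as the local ones at the points `(0, c)`, is of the form

  `Z = χ_0 + ∑_i χ_i z_i + [e ∣ d] / (d s + n + 1) * (χ_0' + ∑_i χ_i' z_i)`,

where the `χ`s are Euler characteristics and the `z_i` are the `e`-th twisted local zeta functions of
`G` at points `p_i = (q_i, c_i)` with `q_i ≠ 0`.

We assume that the germs of `G` at these points are in the class `ConeGerm`: they become, in suitable
formal coordinates and up to units, members of the class `𝓢` of iterated suspensions of functions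
`h'(z) (f_0'(z) + ∑_j w_j f_j'(z)) ^ a'`, `z = (z_1, z_2)` (`SusZeta`), or again a polynomial like `G`
(with the same conditions). For `n = 2` and one factor this is always true: near a point with
`x_k ≠ 0` one has `G = x_k ^ d h(z) (∑_j y_j f_j(z)) ^ a` with the two affine coordinates `z` of the
chart `x_k = 1`. It is also true if these germs have corank at most two (splitting lemma).

The theorem: every pole `s₀` of `Z` is a root of the Bernstein-Sato polynomial of `G`, except possibly
`s₀ = -(n + 1) / d`; and also this one, if `n + 1` of the generators of the ideal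
`h ∏_t (f_{t,j})_j ^ a_t` have a nonzero Jacobian determinant, or if `n = 2` and the linear system
which they span is composed with a pencil and satisfies one of the conditions `RootCond` (in
`Pool.Agent.N127.PB.CondDefs`); for instance if it contains `h' G(P, Q)` and `h' G'(P, Q)`, where the
curves `P = 0` and `Q = 0` of degree `≥ 3` meet transversally, `h'` is any form, and `G(P, Q) / G'(P, Q)`
is not constant. By the theorem of Malgrange and Kashiwara, `exp(2 π i s₀)` is then an eigenvalue of
the monodromy of `G` at some point.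

Proof. A functional equation of `G` gives, after division by `∏_t ∏_{i ≤ a_t} (a_t s + i)`, a functional
equation of the ideal `h ∏_t (f_{t,j})_j ^ a_t` (`functionalEq_strong`); from this the root
`-(n + 1) / d` is deduced as in `generic_root` and `root_ideal`. The local zeta functions at the points
with `x ≠ 0` are regular at `s₀` if `b(s₀) ≠ 0` (`ConeGerm.reg`). -/

namespace Pool.Agent.Results.MP_b22d1f_ag.ConesTwisted

open Pool.Agent.N103.V Pool.Agent.N127.TW
open Pool.Agent.H628R4.TP (IsBFunction)
open Pool.Agent.Y229.RE (trans)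

/-- **The twisted monodromy conjecture, in the strong form, for the polynomials
`G = h(x) ∏_t (∑_j y_{t,j} f_{t,j}(x)) ^ a_t`** (`C.G`), where `h` and the `f_{t,j}` are forms in
`x = (x_0, ..., x_n)`; the degree of `G` in `x` is `d > 0` (`C.d`). Let `b` satisfy a functional equation
`b(s) G ^ s = P(s) G ^ (s + 1)`, let `e ≥ 1`, and let
`Z = χ_0 + ∑_i χ_i z_i + [e ∣ d] / (d s + n + 1) * (χ_0' + ∑_i χ_i' z_i)` be the `e`-th twisted topological
zeta function of `G`, where the `z_i` are the `e`-th twisted local zeta functions of `G` at points `p_i`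
(`ConeGerm`), and the `χ`s are integers. Then every pole `s₀` of `Z` is a root of `b`, provided that
`s₀ ≠ -(n + 1) / d`, or that `n + 1` of the generators `h ∏_t ∏_{i < a_t} f_{t, J(t, i)}` of the ideal
`h ∏_t (f_{t,j})_j ^ a_t` have a nonzero Jacobian determinant, or that `n = 2` and the linear system
spanned by these generators satisfies one of the conditions `RootCond` (`C.Cond`). -/
theorem result {N : ℕ} (C : ConeData N) (b : Polynomial ℂ) (hb : IsBFunction C.G b) (e : ℕ)
    (he : 1 ≤ e) (s₀ : ℂ) (hc : s₀ ≠ -((C.n : ℂ) + 1) / C.d ∨ C.Cond) (l : ℕ)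
    (p : Fin l → Fin N → ℂ) (z : Fin l → RatFunc ℂ)
    (hz : ∀ i, ConeGerm e s₀ (trans (p i) C.G : MvPowerSeries (Fin N) ℂ) (z i))
    (χ₀ χ₀' : ℤ) (χ χ' : Fin l → ℤ) (Z : RatFunc ℂ)
    (hZ : Z = ((χ₀ : RatFunc ℂ) + ∑ i, (χ i : RatFunc ℂ) * z i) +
      tfac e C.d (C.n + 1) * ((χ₀' : RatFunc ℂ) + ∑ i, (χ' i : RatFunc ℂ) * z i))
    (hs₀ : Z.denom.eval s₀ = 0) :
    b.eval s₀ = 0 := by
  by_contra hne
  subst hZ
  have hz' : ∀ i, z i ∈ Pool.Agent.W574.SM.Reg s₀ := fun i => (hz i).reg he hne
    (Pool.Agent.Y229.PS.formal_of_local (Pool.Agent.Y229.RE.trans_local (p i) hb))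
  exact Pool.Agent.W574.SM.Reg_denom s₀ _ (Subring.add_mem _ (sum_reg z hz' χ₀ χ)
    (Subring.mul_mem _ (C.tfac_reg hb e hne hc) (sum_reg z hz' χ₀' χ'))) hs₀

end Pool.Agent.Results.MP_b22d1f_ag.ConesTwisted
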