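import Pool.Agent.N101.CB.TwMain

set_option autoImplicit false

/-! # The monodromy conjecture for twisted topological zeta functions: cubic polynomials suffice

For every non-constant polynomial `f` in `n` variables we construct a cubic polynomial `F` in
`n + 2 κ` variables, of the form `q_0(x) + ∑_k t_k q_k(x)` with polynomials `q_0, q_k` of degree at most
two, all of whose monomials are squarefree (`Cub F`), such that for every `e ≥ 1` the conjecture for
`Z^(e)_F` implies the conjecture for `Z^(e)_f`. So the conjecture (for all polynomials and all `e`) holds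
if it holds for these cubic polynomials. This is proved for the conjecture Q1 of the page (`Weak`: `exp(2 π i s)`
is a monodromy eigenvalue, i.e. by the theorem of Malgrange and Kashiwara there is a root of the
Bernstein-Sato polynomial in `s + ℤ`), and for the strong form (`s` is a root).

Twisted zeta functions. For `d ≥ 1` let `Z_(d)(T) = ∑_{N ≥ 1} [Y_N^(d)] 𝕃 ^ (-n N) T ^ N`, where
`Y_N^(d)` is the variety of the pairs `(ψ, w)`, `ψ` an `N`-jet, `w ≠ 0`, `f(ψ) = w ^ d t ^ N mod t ^ (N + 1)`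
(`zte f d`). On an embedded resolution
`Z_(d)(T) = ∑_{∅ ≠ I} [E_I^(g)] ∏_{i ∈ I} F_(N_i, ν_i)`, `F_(N, ν) = (𝕃 - 1) 𝕃 ^ (-ν) T ^ N / (1 - 𝕃 ^ (-ν) T ^ N)`, where
`g = gcd(d, m_I)` and `E_I^(g)` is an étale covering of degree `g` of `E_I°`. The specialisation
`[V] ↦ χ_top(V)`, `F_(N, ν) ↦ 1 / (N s + ν)` gives
`∑_{∅ ≠ I} gcd(d, m_I) χ_top(E_I°) ∏ 1 / (N_i s + ν_i) = ∑_{c ∣ d} φ(c) Z^(c)_top(s)`, since
`gcd(d, m) = ∑_{c ∣ gcd(d, m)} φ(c)`. By Möbius inversion the specialisation of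
`∑_{d ∣ e} μ(e / d) Z_(d)(T)` (`Mte f e`) is `φ(e) Z^(e)_top(s)`. This is used as definition of `Z^(e)_top`
(`IsTwTopZeta`).

The step. Let `F = f + t w` (or its image `f + (t + v(x)) (w - u(x))` by an automorphism). For jets
`(x, t, w)` with `ord t = i ≤ N` one can change the coefficient of `t ^ N` in `F` arbitrarily by changing
one coefficient of `w(t)`. So `[Y_N^(d)(F)] - [Y_N^(1)(F)] = 𝕃 ^ (N + 1) ([Y_N^(d)(f)] - [Y_N^(1)(f)])`,
and for `e ≥ 2` the twisted motivic zeta function of `F` is `𝕃` times the one of `f` at `𝕃⁻¹ T`: after `κ`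
steps `Z^(e)_F(s) = Z^(e)_f(s + κ)`. (For `e = 1` there is a more complicated formula.)
A functional equation of `f` with `(s + 1) c(s)` gives one of `F` with `(s + 1) c(s + κ)`. -/

namespace Pool.Agent.Results.MP_b22d1f_ag.CubicPolynomials

open MvPolynomial Pool.Agent.W428.MOT Pool.Agent.N101.CB
open Pool.Agent.H628R4.TP (IsBFunction)

/-- `R` is a twisted topological zeta function `Z^(e)_top` of `f`, for the ring homomorphism
`χ : 𝓜 → ℂ` with `χ(𝕃) = 1`, for instance the Euler characteristic: the motivic zeta function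
`Mte f e = ∑_{d ∣ e} μ(e / d) ∑_{N ≥ 1} [{(ψ, w) : w ≠ 0, f(ψ) = w ^ d t ^ N}] 𝕃 ^ (-n N) T ^ N` is a
polynomial `Q` in the `F_(N, ν) = (𝕃 - 1) 𝕃 ^ (-ν) T ^ N / (1 - 𝕃 ^ (-ν) T ^ N)`, `N, ν ≥ 1`, with coefficients in
`𝓜`, and `φ(e) R = (χ Q)(1 / (N s + ν))`. -/
def IsTwTopZeta (χ : MK ℂ →+* ℂ) {n : ℕ} (f : MvPolynomial (Fin n) ℂ) (e : ℕ)
    (R : RatFunc ℂ) : Prop :=
  IsTop χ (Mte f e) ((Nat.totient e : RatFunc ℂ) * R)

/-- The conjecture for `f` and `e`: for every pole `s` of a twisted topological zeta function of `f`,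
every polynomial `b` with a functional equation `b(s) f ^ s = P(s) f ^ (s + 1)` (in particular the
Bernstein-Sato polynomial) has a root in `s + ℤ`. -/
def Weak (χ : MK ℂ →+* ℂ) (e : ℕ) {n : ℕ} (f : MvPolynomial (Fin n) ℂ) : Prop :=
  ∀ R : RatFunc ℂ, IsTwTopZeta χ f e R → ∀ s : ℂ, ¬ Reg R s →
    ∀ b : Polynomial ℂ, IsBFunction f b → ∃ k : ℤ, b.eval (s + k) = 0

/-- The strong form: `s` itself is a root. -/
def Strong (χ : MK ℂ →+* ℂ) (e : ℕ) {n : ℕ} (f : MvPolynomial (Fin n) ℂ) : Prop :=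
  ∀ R : RatFunc ℂ, IsTwTopZeta χ f e R → ∀ s : ℂ, ¬ Reg R s →
    ∀ b : Polynomial ℂ, IsBFunction f b → b.eval s = 0

/-- **Cubic polynomials suffice for the monodromy conjecture for twisted topological zeta functions.**
Let `χ : 𝓜 → ℂ` be a ring homomorphism with `χ(𝕃) = 1`.

First part: for every non-constant `f` in `n` variables there are `κ` and a non-constant cubic `F` with
`Cub F` in `n + 2 κ` variables, such that
(1) for all `e ≥ 2`: if `R(s)` is a twisted topological zeta function `Z^(e)` of `f` then `R(s + κ)` is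
one of `F`;
(2) a functional equation of `f` with `(s + 1) c(s)` gives one of `F` with `(s + 1) c(s + κ)`;
(3) for all `e ≥ 1` the conjecture for `F` implies the conjecture for `f`; the same for the strong form.

Second and third part: for every `e ≥ 1` the conjecture (respectively its strong form) holds for all
non-constant polynomials, in any number of variables, if and only if it holds for the cubic ones
with `Cub f`. -/
theorem result (χ : MK ℂ →+* ℂ) (hχ : χ ((Lu ℂ : (MK ℂ)ˣ) : MK ℂ) = 1) :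
    (∀ {n : ℕ} (f : MvPolynomial (Fin n) ℂ), f.totalDegree ≠ 0 →
      ∃ (κ m : ℕ) (F : MvPolynomial (Fin m) ℂ), m = n + 2 * κ ∧ Cub F ∧ F.totalDegree ≠ 0 ∧
        (∀ e, 2 ≤ e → ∀ R : RatFunc ℂ, IsTwTopZeta χ f e R →
          IsTwTopZeta χ F e (shR (κ : ℂ) R)) ∧
        (∀ c : Polynomial ℂ, IsBFunction f ((Polynomial.X + 1) * c) →
          IsBFunction F ((Polynomial.X + 1) * c.comp (Polynomial.X + Polynomial.C (κ : ℂ)))) ∧
        ∀ e, 1 ≤ e → (Weak χ e F → Weak χ e f) ∧ (Strong χ e F → Strong χ e f)) ∧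
    (∀ e, 1 ≤ e → ((∀ (n : ℕ) (f : MvPolynomial (Fin n) ℂ), f.totalDegree ≠ 0 → Weak χ e f) ↔
      ∀ (n : ℕ) (f : MvPolynomial (Fin n) ℂ), Cub f → f.totalDegree ≠ 0 → Weak χ e f)) ∧
    ∀ e, 1 ≤ e → ((∀ (n : ℕ) (f : MvPolynomial (Fin n) ℂ), f.totalDegree ≠ 0 → Strong χ e f) ↔
      ∀ (n : ℕ) (f : MvPolynomial (Fin n) ℂ), Cub f → f.totalDegree ≠ 0 → Strong χ e f) := by
  refine ⟨fun {n} f hf => ?_, fun e he => ⟨fun h n f _ => h n f, fun h n f hf => ?_⟩,
    fun e he => ⟨fun h n f _ => h n f, fun h n f hf => ?_⟩⟩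
  · obtain ⟨κ, m, F, hm, hF, hl⟩ := TW.exists_cubic_tw f
    exact ⟨κ, m, F, hm, hF, hl.rl.deg hf, fun e he R hR => TW.isTw_shift hχ hl he hR,
      fun c hc => (hl.rl.b hf _ hc).2 c rfl,
      fun e he => ⟨TW.twW_of hχ hf hl he, TW.twS_of hχ hf hl he⟩⟩
  · obtain ⟨κ, m, F, -, hF, hl⟩ := TW.exists_cubic_tw f
    exact TW.twW_of hχ hf hl he (h m F hF (hl.rl.deg hf))
  · obtain ⟨κ, m, F, -, hF, hl⟩ := TW.exists_cubic_tw f
    exact TW.twS_of hχ hf hl he (h m F hF (hl.rl.deg hf))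

end Pool.Agent.Results.MP_b22d1f_ag.CubicPolynomials
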