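import Pool.Agent.N103.Main

set_option autoImplicit false

/-! # Twisted topological zeta functions of `h(x) (f₀(x) + ∑ y_j f_j(x)) ^ a`, `x = (x₁, x₂)`

Here `h`, `f₀` and the `f_j`, `j ∈ κ`, are arbitrary polynomials in the two variables `x₁, x₂`, the
`y_j` are further variables (their number is arbitrary), `a ≥ 1`, and
`F = FF h f a = h (f₀ + ∑ y_j f_j) ^ a ≠ 0`. For `h = 1` and `a = 1` these are all the polynomials in
`2 + |κ|` variables whose degree with respect to all the variables but two is at most `1`; for
instance the surfaces `f₀(x₁, x₂) + y f₁(x₁, x₂) = 0`, and the cones over the plane projective curves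
of degree `d` with a point of multiplicity at least `d - 1`. The singularities of `F` are in general
not isolated, and degenerate with respect to the Newton polyhedra.

The resolution: let `X' → ℂ ^ 2` be a composition of blow-ups of points such that `h` and the pull-back
of the ideal `(f₀, f_j)` become monomial; on `X' × ℂ ^ κ` the polynomial `F` is a monomial in the
equations of the exceptional curves and of the strict transforms of the curves, times
`(g₀ + ∑ y_j g_j) ^ a`, where the `g₀, g_j` have no common zero; so `g₀ + ∑ y_j g_j = 0` is smooth and
transversal to the other components. The contribution of the point `(P, c)` of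
`ℂ ^ 2 × ℂ ^ κ` to the zeta function `Z^(e)` is computed by the inductive rules of `GermZeta`
(in `Pool.Agent.N103.ZDefs`) at the points over `P`, with the local factors `1 / (N s + ν)` if `e ∣ N`,
and `0` if not (`facT e`), see `PointZeta`. The local zeta functions take only finitely many
values on `ℂ ^ (2 + κ)`, each on a constructible set, and `Z^(e)` is their sum, with the Euler
characteristics of these sets as coefficients (up to a constant, the Euler characteristic of
`{F ≠ 0}`, as the sum for `Z^(e)` is over the non-empty `I`).

The theorem: every pole of `Z^(e)` is a root of the Bernstein-Sato polynomial of `F`. By the theorem of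
Malgrange and Kashiwara, `exp(2 π i s₀)` is then an eigenvalue of the monodromy of `F` at some point of
`{F = 0}`, for every pole `s₀`. For `e = 1` this is the topological zeta function itself.

The proof (`Pool.Agent.N103`): let `E` be an exceptional curve of `X'` with the candidate pole
`s₀ = -ν / N`, `b(s₀) ≠ 0`.

* `engine2`, `star`: the functional equation, applied to the pull-back of `F` near `E × {c}`, gives a
  solution of the differential equation of first order on `E`, with coefficients in the
  ring of polynomials in the `y_j` localized at `f₀ + ∑ y_j f_j`;
* `partA`, `partC1`, `partC2`, `partB`, `nodeT`: if `g₀ + ∑ c_j g_j` does not vanish on `E`, this gives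
  a rational solution on `E`; if it does, all the `g_j` are proportional on `E`, and there is such a
  solution too; and if `g₀ + ∑ c_j g_j` has a zero at a point of `E` at which some `g_j` does not
  vanish on another component, there is no other component (comparison of the orders in `y`);
* `blowA`: by the rational solution at most two of the points of `E` are special, and the sum of the
  contributions of `E` has no pole at `s₀`;
* `curve_rootA`, `typeH_root`: the numbers `-1 / N` of the strict transforms are roots of `b`;
* `good_all`: induction over the tree of the blow-ups. -/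

namespace Pool.Agent.Results.MP_b22d1f_ag.DegreeOneOffPlane

open Pool.Agent.N103 Pool.Agent.H628R4.TP

/-- **The monodromy conjecture for the twisted topological zeta functions of the polynomials
`F = h(x₁, x₂) (f₀(x₁, x₂) + ∑ y_j f_j(x₁, x₂)) ^ a`**, for arbitrary polynomials `h`, `f₀`, `f_j`, `a ≥ 1` and
`F ≠ 0`. Let `e ≥ 1`, and let the `Z i` be the contributions of points `(P i, c i)` to the twisted
topological zeta function of `F` (`PointZeta (facT e) 1 h f a`). Then every pole `s₀` of
`χ0 + ∑ i, χ i * Z i`, for arbitrary integers `χ0`, `χ i` (for the Euler characteristics of suitable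
sets, this is the function `Z^(e)` of `F`), is a root of every `b` with `b(s) F ^ s = P(s) F ^ (s + 1)`,
in particular of the Bernstein-Sato polynomial of `F`. -/
theorem result {κ : Type} [Fintype κ] (h : MvPolynomial (Fin 2) ℂ)
    (f : Option κ → MvPolynomial (Fin 2) ℂ) (a : ℕ) (ha : 1 ≤ a) (hF : FF h f a ≠ 0)
    (b : Polynomial ℂ) (hb : IsBFunction (FF h f a) b) (e : ℕ) (he : 1 ≤ e)
    {ι : Type} [Fintype ι] (χ0 : ℤ) (χ : ι → ℤ) (P : ι → Fin 2 → ℂ) (c : ι → κ → ℂ)
    (Z : ι → RatFunc ℂ) (hZ : ∀ i, PointZeta (facT e) 1 h f a (P i) (c i) (Z i))
    (s₀ : ℂ) (hs₀ : ((χ0 : RatFunc ℂ) + ∑ i, (χ i : RatFunc ℂ) * Z i).denom.eval s₀ = 0) :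
    b.eval s₀ = 0 := by
  classical
  exact global_top h f a ha hF b hb e he χ P c Z hZ χ0 s₀ hs₀

end Pool.Agent.Results.MP_b22d1f_ag.DegreeOneOffPlane
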